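import Mathlib

namespace Pool.Agent.Results.MP_6c91b3_co.AdjDegTwo

open SimpleGraph Finset

/-- `G` lies in the class `D_23`: every vertex has degree `2` or `3`, and exactly half of the
vertices have degree `2` (hence the other half have degree `3`). -/
def InD23 {V : Type} [Fintype V] (G : SimpleGraph V) [DecidableRel G.Adj] : Prop :=
  (∀ v, G.degree v = 2 ∨ G.degree v = 3) ∧
    2 * (univ.filter (fun v => G.degree v = 2)).card = Fintype.card V

/-- `G` is extremal for `g`: it lies in `D_23`, has girth `g`, and no graph in `D_23` of girth `g`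
has fewer vertices. -/
def IsExtremal (g : ℕ) {V : Type} [Fintype V] (G : SimpleGraph V) [DecidableRel G.Adj] : Prop :=
  InD23 G ∧ G.girth = g ∧
    ∀ (m : ℕ) (H : SimpleGraph (Fin m)) [DecidableRel H.Adj],
      InD23 H → H.girth = g → Fintype.card V ≤ m

section girth

variable {V : Type} {G : SimpleGraph V}

lemma girth_eq_of {g : ℕ} (h1 : ∀ a (w : G.Walk a a), w.IsCycle → g ≤ w.length)
    (h2 : ∃ a, ∃ w : G.Walk a a, w.IsCycle ∧ w.length = g) : G.girth = g := by
  obtain ⟨a, w, hw, hl⟩ := h2
  have hna : ¬ G.IsAcyclic := fun h => h w hw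
  obtain ⟨b, w', hw', hl'⟩ := exists_girth_eq_length.mpr hna
  apply le_antisymm
  · rw [← hl]; exact girth_le_length hw
  · rw [hl']; exact h1 b w' hw'

variable [DecidableEq V]

/-- depth first search for short closed non-backtracking walks -/
def chk (nb : V → List V) (s : V) : ℕ → V → V → Bool
  | 0, _, _ => true
  | k + 1, p, c => (nb c).all (fun x => x == p || (x != s && chk nb s k c x))

lemma chk_sound (nb : V → List V) (hnb : ∀ a b, G.Adj a b → b ∈ nb a) (s : V) :
    ∀ (k : ℕ) (p c : V) (h : G.Adj p c) (w : G.Walk c s), 0 < w.length → w.length ≤ k →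
      (Walk.cons h w).edges.Nodup → chk nb s k p c = true → False := by
  intro k
  induction k with
  | zero => intro p c h w h0 h1; omega
  | succ k ih =>
    intro p c h w h0 h1 hn hc
    cases w with
    | nil => simp at h0
    | @cons _ x _ h' w' =>
      simp only [chk, List.all_eq_true] at hc
      have hx := hc x (hnb _ _ h')
      have hxp : x ≠ p := by
        rintro rfl
        simp [Walk.edges_cons] at hn
      simp [hxp] at hx
      obtain ⟨hxs, hx⟩ := hx
      have hw0 : 0 < w'.length := by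
        rcases Nat.eq_zero_or_pos w'.length with h | h
        · exact absurd (Walk.eq_of_length_eq_zero h) hxs
        · exact h
      have hn' : (Walk.cons h' w').edges.Nodup := by
        simp only [Walk.edges_cons] at hn ⊢
        exact (List.nodup_cons.mp hn).2
      exact ih c x h' w' hw0 (by simp at h1; omega) hn' hx

lemma no_short (nb : V → List V) (hnb : ∀ a b, G.Adj a b → b ∈ nb a) (g : ℕ)
    (hc : ∀ s c, c ∈ nb s → chk nb s (g - 2) s c = true) :
    ∀ a (w : G.Walk a a), w.IsCycle → g ≤ w.length := by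
  intro a w hw
  by_contra hlt
  push Not at hlt
  have h3 := hw.three_le_length
  cases w with
  | nil => simp at h3
  | @cons _ c _ h w' =>
    have hn : (Walk.cons h w').edges.Nodup := hw.isTrail.edges_nodup
    simp at h3 hlt
    exact chk_sound nb hnb a (g - 2) a c h w' (by omega) (by omega) hn (hc a c (hnb _ _ h))

end girth

section small

variable {V : Type} {G : SimpleGraph V}

lemma girth_le3 {a b c : V} (hab : G.Adj a b) (hbc : G.Adj b c) (hca : G.Adj c a) :
    G.girth ≤ 3 := by
  have hw : (Walk.cons hab (Walk.cons hbc (Walk.cons hca Walk.nil))).IsCycle := by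
    have := hab.ne; have := hbc.ne; have := hca.ne
    rw [Walk.cons_isCycle_iff]
    simp_all [Walk.isPath_def, eq_comm]
  exact girth_le_length hw

lemma girth_le4 {a b c d : V} (hab : G.Adj a b) (hbc : G.Adj b c) (hcd : G.Adj c d)
    (hda : G.Adj d a) (hac : a ≠ c) (hbd : b ≠ d) : G.girth ≤ 4 := by
  have hw : (Walk.cons hab (Walk.cons hbc (Walk.cons hcd (Walk.cons hda Walk.nil)))).IsCycle := by
    have := hab.ne; have := hbc.ne; have := hcd.ne; have := hda.ne
    rw [Walk.cons_isCycle_iff]
    simp_all [Walk.isPath_def, eq_comm]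
  exact girth_le_length hw

lemma girth_le5 {a b c d e : V} (hab : G.Adj a b) (hbc : G.Adj b c) (hcd : G.Adj c d)
    (hde : G.Adj d e) (hea : G.Adj e a) (hac : a ≠ c) (had : a ≠ d) (hbd : b ≠ d)
    (hbe : b ≠ e) (hce : c ≠ e) : G.girth ≤ 5 := by
  have hw : (Walk.cons hab (Walk.cons hbc (Walk.cons hcd (Walk.cons hde
      (Walk.cons hea Walk.nil))))).IsCycle := by
    have := hab.ne; have := hbc.ne; have := hcd.ne; have := hde.ne; have := hea.ne
    rw [Walk.cons_isCycle_iff]
    simp_all [Walk.isPath_def, eq_comm]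
  exact girth_le_length hw

end small

/-- the extremal graph for girth four -/
def G4 : SimpleGraph (Fin 8) :=
  SimpleGraph.fromRel (fun a b => (a, b) ∈ ([(0, 4), (4, 5), (5, 1), (2, 6), (6, 3), (0, 7), (7, 2),
    (0, 3), (1, 2), (1, 3)] : List (Fin 8 × Fin 8)))

instance : DecidableRel G4.Adj := by unfold G4; infer_instance

/-- the extremal graph for girth six -/
def G6 : SimpleGraph (Fin 12) :=
  SimpleGraph.fromRel (fun a b => (a, b) ∈ ([(0, 4), (0, 5), (1, 3), (1, 5), (2, 3), (2, 4),
    (0, 6), (6, 7), (7, 3), (1, 8), (8, 9), (9, 4), (2, 10), (10, 11), (11, 5)]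
    : List (Fin 12 × Fin 12)))

instance : DecidableRel G6.Adj := by unfold G6; infer_instance

lemma girth_G4 : G4.girth = 4 := by
  apply girth_eq_of
  · apply no_short (nb := fun a => (List.finRange 8).filter (fun b => G4.Adj a b))
    · intro a b h; simp [h]
    · decide
  · refine ⟨2, .cons (v := 6) (by decide) (.cons (v := 3) (by decide) (.cons (v := 1) (by decide)
      (.cons (by decide) .nil))), ?_, rfl⟩
    rw [Walk.cons_isCycle_iff]
    simp [Walk.isPath_def]

lemma girth_G6 : G6.girth = 6 := by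
  apply girth_eq_of
  · apply no_short (nb := fun a => (List.finRange 12).filter (fun b => G6.Adj a b))
    · intro a b h; simp [h]
    · decide +kernel
  · refine ⟨0, .cons (v := 6) (by decide) (.cons (v := 7) (by decide) (.cons (v := 3) (by decide)
      (.cons (v := 1) (by decide) (.cons (v := 5) (by decide) 
      (.cons (by decide) .nil))))), ?_, rfl⟩
    rw [Walk.cons_isCycle_iff]
    simp [Walk.isPath_def]

lemma inD23_G4 : InD23 G4 := by unfold InD23; decide +kernel
lemma inD23_G6 : InD23 G6 := by unfold InD23; decide +kernel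

section lower

variable {V : Type} [Fintype V] [DecidableEq V] {G : SimpleGraph V} [DecidableRel G.Adj]

lemma card_deg3 (h : InD23 G) :
    2 * (univ.filter (fun v => G.degree v = 3)).card = Fintype.card V := by
  have h1 : (univ.filter (fun v => G.degree v = 2)).card +
      (univ.filter (fun v => G.degree v = 3)).card = Fintype.card V := by
    rw [← Finset.card_union_of_disjoint]
    · rw [← Finset.card_univ]
      congr 1
      ext v
      simpa using h.1 v
    · rw [Finset.disjoint_filter]
      intro v _ h2 h3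
      omega
  have h2 := h.2
  omega

lemma four_dvd (h : InD23 G) : 4 ∣ Fintype.card V := by
  have h3 := card_deg3 h
  have h2 := h.2
  have hs := G.sum_degrees_eq_twice_card_edges
  have hsum : ∑ v, G.degree v = 2 * (univ.filter (fun v => G.degree v = 2)).card +
      3 * (univ.filter (fun v => G.degree v = 3)).card := by
    have : ∀ v, G.degree v = (if G.degree v = 2 then 2 else 0) + (if G.degree v = 3 then 3 else 0) := by
      intro v
      rcases h.1 v with h | h <;> simp [h]
    rw [Finset.sum_congr rfl (fun v _ => this v), Finset.sum_add_distrib]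
    simp [← Finset.sum_filter, mul_comm]
  omega

omit [DecidableEq V] [DecidableRel G.Adj] in
lemma nonempty_of_girth (h : G.girth ≠ 0) : 0 < Fintype.card V := by
  have hna : ¬ G.IsAcyclic := fun h' => h h'.girth_eq_zero
  obtain ⟨a, _⟩ := exists_girth_eq_length.mpr hna
  exact Fintype.card_pos_iff.mpr ⟨a⟩

lemma lower4 (h : InD23 G) (hg : G.girth = 4) : 8 ≤ Fintype.card V := by
  have h4 := four_dvd h
  have h0 := nonempty_of_girth (G := G) (by omega)
  by_contra hlt
  have hc : Fintype.card V = 4 := by omega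
  have h3 := card_deg3 h
  have hc2 : (univ.filter (fun v => G.degree v = 3)).card = 2 := by omega
  obtain ⟨u, v, huv, hs⟩ := Finset.card_eq_two.mp hc2
  have hu : G.degree u = 3 := by
    have : u ∈ univ.filter (fun v => G.degree v = 3) := by rw [hs]; simp
    simpa using this
  have hv : G.degree v = 3 := by
    have : v ∈ univ.filter (fun v => G.degree v = 3) := by rw [hs]; simp
    simpa using this
  have hall : ∀ x, G.degree x = 3 → ∀ y, y ≠ x → G.Adj x y := by
    intro x hx y hy
    have hsub : G.neighborFinset x ⊆ univ.erase x := by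
      intro z hz
      simp only [mem_neighborFinset] at hz
      simp [hz.ne']
    have heq := Finset.eq_of_subset_of_card_le hsub (by
      rw [Finset.card_erase_of_mem (mem_univ _), Finset.card_univ, hc, card_neighborFinset_eq_degree, hx])
    have : y ∈ G.neighborFinset x := by rw [heq]; simp [hy]
    simpa using this
  have hw : ∃ w, w ≠ u ∧ w ≠ v := by
    by_contra hcon
    push Not at hcon
    have : (univ : Finset V) ⊆ {u, v} := by
      intro z _
      simp only [mem_insert, mem_singleton]
      by_cases hz : z = u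
      · exact Or.inl hz
      · exact Or.inr (hcon z hz)
    have h5 := Finset.card_le_card this
    have h6 : ({u, v} : Finset V).card ≤ 2 := Finset.card_le_two
    rw [Finset.card_univ] at h5
    omega
  obtain ⟨w, hwu, hwv⟩ := hw
  have := girth_le3 (hall u hu v huv.symm) (hall v hv w hwv) (hall u hu w hwu).symm
  omega

lemma exists_adj3 (h : InD23 G) (h0 : 0 < Fintype.card V) :
    ∃ u v, G.Adj u v ∧ G.degree u = 3 ∧ G.degree v = 3 := by
  by_contra hcon
  push Not at hcon
  have h3 := card_deg3 h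
  have h2 := h.2
  have hle : ∑ v ∈ univ.filter (fun v => G.degree v = 3), G.degree v ≤
      ∑ v ∈ univ.filter (fun v => G.degree v = 2), G.degree v := by
    have e1 : ∀ v ∈ univ.filter (fun v => G.degree v = 3), G.degree v =
        (Finset.bipartiteAbove G.Adj (univ.filter (fun v => G.degree v = 2)) v).card := by
      intro v hv
      rw [← card_neighborFinset_eq_degree]
      congr 1
      ext w
      simp only [mem_neighborFinset, mem_bipartiteAbove, mem_filter, mem_univ, true_and]
      constructor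
      · intro hw
        refine ⟨?_, hw⟩
        rcases h.1 w with h' | h'
        · exact h'
        · exact absurd h' (hcon v w hw (by simpa using hv))
      · exact fun hw => hw.2
    rw [Finset.sum_congr rfl e1, Finset.sum_card_bipartiteAbove_eq_sum_card_bipartiteBelow]
    apply Finset.sum_le_sum
    intro w _
    rw [← card_neighborFinset_eq_degree]
    apply Finset.card_le_card
    intro z hz
    simp only [mem_bipartiteBelow] at hz
    simpa using hz.2.symm
  have e3 : ∑ v ∈ univ.filter (fun v => G.degree v = 3), G.degree v =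
      3 * (univ.filter (fun v => G.degree v = 3)).card := by
    rw [Finset.sum_congr rfl (g := fun _ => 3)]
    · simp [mul_comm]
    · intro v hv; simpa using hv
  have e2 : ∑ v ∈ univ.filter (fun v => G.degree v = 2), G.degree v =
      2 * (univ.filter (fun v => G.degree v = 2)).card := by
    rw [Finset.sum_congr rfl (g := fun _ => 2)]
    · simp [mul_comm]
    · intro v hv; simpa using hv
  omega

lemma other_nbr (h : InD23 G) {a b : V} (_hab : G.Adj a b) : ∃ c, G.Adj b c ∧ c ≠ a := by
  by_contra hcon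
  push Not at hcon
  have : G.neighborFinset b ⊆ {a} := by
    intro z hz
    simp only [mem_neighborFinset] at hz
    simp [hcon z hz]
  have h1 := Finset.card_le_card this
  rw [card_neighborFinset_eq_degree] at h1
  simp at h1
  rcases h.1 b with h' | h' <;> omega

lemma two_nbrs {a b : V} (hab : G.Adj a b) (h3 : G.degree b = 3) :
    ∃ c d, c ≠ d ∧ G.Adj b c ∧ G.Adj b d ∧ c ≠ a ∧ d ≠ a := by
  have hm : a ∈ G.neighborFinset b := by simpa using hab.symm
  have hc : ((G.neighborFinset b).erase a).card = 2 := by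
    rw [Finset.card_erase_of_mem hm, card_neighborFinset_eq_degree, h3]
  obtain ⟨c, d, hcd, hs⟩ := Finset.card_eq_two.mp hc
  have hc' : c ∈ (G.neighborFinset b).erase a := by rw [hs]; simp
  have hd' : d ∈ (G.neighborFinset b).erase a := by rw [hs]; simp
  simp only [mem_erase, mem_neighborFinset] at hc' hd'
  exact ⟨c, d, hcd, hc'.2, hd'.2, hc'.1, hd'.1⟩

lemma lower6 (h : InD23 G) (hg : G.girth = 6) : 12 ≤ Fintype.card V := by
  have h4 := four_dvd h
  have h0 := nonempty_of_girth (G := G) (by omega)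
  obtain ⟨u, v, huv, hu, hv⟩ := exists_adj3 h h0
  obtain ⟨u1, u2, hu12, hu1, hu2, hu1v, hu2v⟩ := two_nbrs huv.symm hu
  obtain ⟨v1, v2, hv12, hv1, hv2, hv1u, hv2u⟩ := two_nbrs huv hv
  obtain ⟨x1, hx1, hx1u⟩ := other_nbr h hu1
  obtain ⟨x2, hx2, hx2u⟩ := other_nbr h hu2
  obtain ⟨y1, hy1, hy1v⟩ := other_nbr h hv1
  obtain ⟨y2, hy2, hy2v⟩ := other_nbr h hv2
  have n3 : ∀ a b c : V, G.Adj a b → G.Adj b c → G.Adj c a → False := by
    intro a b c h1 h2 h3
    have := girth_le3 h1 h2 h3
    omega
  have n4 : ∀ a b c d : V, G.Adj a b → G.Adj b c → G.Adj c d → G.Adj d a → a ≠ c → b ≠ d →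
      False := by
    intro a b c d h1 h2 h3 h4 h5 h6
    have := girth_le4 h1 h2 h3 h4 h5 h6
    omega
  have n5 : ∀ a b c d e : V, G.Adj a b → G.Adj b c → G.Adj c d → G.Adj d e → G.Adj e a →
      a ≠ c → a ≠ d → b ≠ d → b ≠ e → c ≠ e → False := by
    intro a b c d e h1 h2 h3 h4 h5 h6 h7 h8 h9 h10
    have := girth_le5 h1 h2 h3 h4 h5 h6 h7 h8 h9 h10
    omega
  have hnd : [u, v, u1, u2, v1, v2, x1, x2, y1, y2].Nodup := by
    have huv' := huv.ne
    have hu1' := hu1.ne
    have hu2' := hu2.ne
    have hv1' := hv1.ne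
    have hv2' := hv2.ne
    have hx1' := hx1.ne
    have hx2' := hx2.ne
    have hy1' := hy1.ne
    have hy2' := hy2.ne
    have a1 : u ≠ y1 := by rintro rfl; exact n3 _ _ _ huv hv1 hy1
    have a2 : u ≠ y2 := by rintro rfl; exact n3 _ _ _ huv hv2 hy2
    have a3 : v ≠ x1 := by rintro rfl; exact n3 _ _ _ hu1 hx1 huv.symm
    have a4 : v ≠ x2 := by rintro rfl; exact n3 _ _ _ hu2 hx2 huv.symm
    have a5 : u1 ≠ v1 := by rintro rfl; exact n3 _ _ _ huv hv1 hu1.symm
    have a6 : u1 ≠ v2 := by rintro rfl; exact n3 _ _ _ huv hv2 hu1.symm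
    have a7 : u2 ≠ v1 := by rintro rfl; exact n3 _ _ _ huv hv1 hu2.symm
    have a8 : u2 ≠ v2 := by rintro rfl; exact n3 _ _ _ huv hv2 hu2.symm
    have a9 : u1 ≠ x2 := by rintro rfl; exact n3 _ _ _ hu2 hx2 hu1.symm
    have a10 : u2 ≠ x1 := by rintro rfl; exact n3 _ _ _ hu1 hx1 hu2.symm
    have a11 : v1 ≠ y2 := by rintro rfl; exact n3 _ _ _ hv2 hy2 hv1.symm
    have a12 : v2 ≠ y1 := by rintro rfl; exact n3 _ _ _ hv1 hy1 hv2.symm
    have a13 : u1 ≠ y1 := by rintro rfl; exact n4 _ _ _ _ huv hv1 hy1 hu1.symm hv1u.symm hu1v.symm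
    have a14 : u1 ≠ y2 := by rintro rfl; exact n4 _ _ _ _ huv hv2 hy2 hu1.symm hv2u.symm hu1v.symm
    have a15 : u2 ≠ y1 := by rintro rfl; exact n4 _ _ _ _ huv hv1 hy1 hu2.symm hv1u.symm hu2v.symm
    have a16 : u2 ≠ y2 := by rintro rfl; exact n4 _ _ _ _ huv hv2 hy2 hu2.symm hv2u.symm hu2v.symm
    have a17 : v1 ≠ x1 := by rintro rfl; exact n4 _ _ _ _ huv hv1 hx1.symm hu1.symm hv1u.symm hu1v.symm
    have a18 : v1 ≠ x2 := by rintro rfl; exact n4 _ _ _ _ huv hv1 hx2.symm hu2.symm hv1u.symm hu2v.symm
    have a19 : v2 ≠ x1 := by rintro rfl; exact n4 _ _ _ _ huv hv2 hx1.symm hu1.symm hv2u.symm hu1v.symm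
    have a20 : v2 ≠ x2 := by rintro rfl; exact n4 _ _ _ _ huv hv2 hx2.symm hu2.symm hv2u.symm hu2v.symm
    have a21 : x1 ≠ x2 := by rintro rfl; exact n4 _ _ _ _ hu1 hx1 hx2.symm hu2.symm hx1u.symm hu12
    have a22 : y1 ≠ y2 := by rintro rfl; exact n4 _ _ _ _ hv1 hy1 hy2.symm hv2.symm hy1v.symm hv12
    have a23 : x1 ≠ y1 := by
      rintro rfl
      exact n5 _ _ _ _ _ huv hv1 hy1 hx1.symm hu1.symm hv1u.symm hx1u.symm a3 hu1v.symm a5.symm
    have a24 : x1 ≠ y2 := by
      rintro rfl
      exact n5 _ _ _ _ _ huv hv2 hy2 hx1.symm hu1.symm hv2u.symm hx1u.symm a3 hu1v.symm a6.symm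
    have a25 : x2 ≠ y1 := by
      rintro rfl
      exact n5 _ _ _ _ _ huv hv1 hy1 hx2.symm hu2.symm hv1u.symm hx2u.symm a4 hu2v.symm a7.symm
    have a26 : x2 ≠ y2 := by
      rintro rfl
      exact n5 _ _ _ _ _ huv hv2 hy2 hx2.symm hu2.symm hv2u.symm hx2u.symm a4 hu2v.symm a8.symm
    simp only [List.nodup_cons, List.mem_cons, List.not_mem_nil, or_false, not_or,
      List.nodup_nil, and_true, not_false_eq_true]
    refine ⟨⟨huv', hu1', hu2', hv1u.symm, hv2u.symm, hx1u.symm, hx2u.symm, a1, a2⟩,
      ⟨hu1v.symm, hu2v.symm, hv1', hv2', a3, a4, hy1v.symm, hy2v.symm⟩,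
      ⟨hu12, a5, a6, hx1', a9, a13, a14⟩, ⟨a7, a8, a10, hx2', a15, a16⟩,
      ⟨hv12, a17, a18, hy1', a11⟩, ⟨a19, a20, a12, hy2'⟩, ⟨a21, a23, a24⟩, ⟨a25, a26⟩, a22⟩
  have := hnd.length_le_card
  simp at this
  omega

end lower

/-- Disproof: for `g = 4` and for `g = 6` some extremal graph contains two adjacent vertices of
degree two. -/
theorem result : ∀ g ∈ ({4, 6} : Finset ℕ), ∃ (n : ℕ) (G : SimpleGraph (Fin n))
    (_ : DecidableRel G.Adj), IsExtremal g G ∧
      ∃ u v, G.Adj u v ∧ G.degree u = 2 ∧ G.degree v = 2 := by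
  intro g hg
  simp only [mem_insert, mem_singleton] at hg
  rcases hg with rfl | rfl
  · refine ⟨8, G4, inferInstance, ⟨inD23_G4, girth_G4, ?_⟩, 4, 5, by decide, by decide, by decide⟩
    intro m H _ hH hg
    simpa using lower4 hH hg
  · refine ⟨12, G6, inferInstance, ⟨inD23_G6, girth_G6, ?_⟩, 6, 7, by decide, by decide, by decide⟩
    intro m H _ hH hg
    simpa using lower6 hH hg

end Pool.Agent.Results.MP_6c91b3_co.AdjDegTwo
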